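import Pool.Agent.Results.MP_060d7c_co.GridExponent

/-!
# MP_ae055e_co: distinct-distance subsets of the cube grid

The starting result `MP_060d7c_co.GridExponent` gives `k_d(n) ≥ 17⁻ᵈ n^(d/(d+1))`; for `d ≥ 3` the
exponent `d/(d+1) ≥ 3/4` is larger than `2/3`, so the conjectured bound
`k_d(n) < c d^(2/3) n^(2/3) (log n)^(1/3)` fails for every `d ≥ 3` and all large `n`.
-/

set_option autoImplicit false

open Finset Filter Asymptotics

namespace Pool.Agent.Results.MP_ae055e_co.TooManyDistances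

open Pool.Agent.Results.MP_060d7c_co.GridExponent

/-- The cube `G_d(n) = {1, …, n}^d` in Euclidean `d`-space. -/
def G (d n : ℕ) : Set (EuclideanSpace ℝ (Fin d)) :=
  {x | ∀ i, ∃ k : ℕ, 1 ≤ k ∧ k ≤ n ∧ x i = k}

/-- `S` has distinct distances: the distances of two different unordered pairs of distinct points
of `S` are different. -/
def DistinctDistances {d : ℕ} (S : Finset (EuclideanSpace ℝ (Fin d))) : Prop :=
  ∀ p ∈ S, ∀ q ∈ S, ∀ r ∈ S, ∀ t ∈ S, p ≠ q → r ≠ t → dist p q = dist r t →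
    (p = r ∧ q = t) ∨ (p = t ∧ q = r)

/-- `k_d(n)`, the largest size of a subset of `G_d(n)` with distinct distances. -/
noncomputable def k (d n : ℕ) : ℕ :=
  sSup {s : ℕ | ∃ S : Finset (EuclideanSpace ℝ (Fin d)),
    (S : Set (EuclideanSpace ℝ (Fin d))) ⊆ G d n ∧ DistinctDistances S ∧ S.card = s}

lemma G_finite (d n : ℕ) : (G d n).Finite := by
  have h : G d n ⊆ Set.range (fun u : Fin d → Fin (n + 1) =>
      (WithLp.toLp 2 (fun i => ((u i : ℕ) : ℝ)) : EuclideanSpace ℝ (Fin d))) := by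
    intro x hx
    choose u hu1 hu2 hu3 using hx
    refine ⟨fun i => ⟨u i, by have := hu2 i; omega⟩, ?_⟩
    ext i
    simp [hu3 i]
  exact (Set.finite_range _).subset h

lemma bdd (d n : ℕ) : BddAbove {s : ℕ | ∃ S : Finset (EuclideanSpace ℝ (Fin d)),
    (S : Set (EuclideanSpace ℝ (Fin d))) ⊆ G d n ∧ DistinctDistances S ∧ S.card = s} := by
  refine ⟨(G_finite d n).toFinset.card, ?_⟩
  rintro s ⟨S, hS, -, rfl⟩
  apply card_le_card
  intro x hx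
  rw [Set.Finite.mem_toFinset]
  exact hS hx

lemma k_lower (d n : ℕ) (hd : 1 ≤ d) (hn : 1 ≤ n) :
    (1 / 17 ^ d : ℝ) * ((n ^ d : ℕ) : ℝ) ^ (1 / ((d : ℝ) + 1)) ≤ k d n := by
  obtain ⟨S, hS, hrep, hcard⟩ := Pool.Agent.Results.MP_060d7c_co.GridExponent.result d hd n hn
  refine hcard.trans ?_
  have : S.card ≤ k d n := le_csSup (bdd d n) ⟨S, hS, hrep, rfl⟩
  exact_mod_cast this

/-- The conjectured bound fails for every `d ≥ 3`: whatever the constant `c`, the reverse inequality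
`k_d(n) ≥ c d^(2/3) n^(2/3) (log n)^(1/3)` holds for all large `n`. -/
theorem result : ∀ d : ℕ, 3 ≤ d → ∀ c : ℝ, ∃ n₀ : ℕ, ∀ n : ℕ, n₀ ≤ n →
    c * (d : ℝ) ^ (2 / 3 : ℝ) * (n : ℝ) ^ (2 / 3 : ℝ) * Real.log n ^ (1 / 3 : ℝ) ≤ k d n := by
  intro d hd c
  set C : ℝ := |c| * (d : ℝ) ^ (2 / 3 : ℝ) with hC
  have hC0 : 0 ≤ C := by positivity
  -- `C (log n)^(1/3) ≤ 17^(-d) n^(1/12)` for large `n`
  have hlog : ∀ᶠ n : ℕ in atTop, C * Real.log n ^ (1 / 3 : ℝ) ≤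
      (1 / 17 ^ d : ℝ) * (n : ℝ) ^ (1 / 12 : ℝ) := by
    have h1 : (fun x : ℝ => Real.log x ^ (1 / 3 : ℝ)) =o[atTop] fun x => x ^ (1 / 12 : ℝ) :=
      isLittleO_log_rpow_rpow_atTop _ (by norm_num)
    have h2 : ∀ᶠ x : ℝ in atTop, ‖Real.log x ^ (1 / 3 : ℝ)‖ ≤
        (1 / 17 ^ d / (C + 1) : ℝ) * ‖x ^ (1 / 12 : ℝ)‖ :=
      h1.bound (by positivity)
    have h3 := tendsto_natCast_atTop_atTop.eventually (h2.and (eventually_ge_atTop (1 : ℝ)))
    filter_upwards [h3] with n hn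
    obtain ⟨hn1, hn2⟩ := hn
    have hlog0 : 0 ≤ Real.log (n : ℝ) := Real.log_nonneg hn2
    rw [Real.norm_of_nonneg (Real.rpow_nonneg hlog0 _),
      Real.norm_of_nonneg (Real.rpow_nonneg (by positivity) _)] at hn1
    calc C * Real.log n ^ (1 / 3 : ℝ)
        ≤ C * ((1 / 17 ^ d / (C + 1) : ℝ) * (n : ℝ) ^ (1 / 12 : ℝ)) := by gcongr
      _ = (C / (C + 1)) * ((1 / 17 ^ d : ℝ) * (n : ℝ) ^ (1 / 12 : ℝ)) := by ring
      _ ≤ 1 * ((1 / 17 ^ d : ℝ) * (n : ℝ) ^ (1 / 12 : ℝ)) := by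
          gcongr
          rw [div_le_one (by positivity)]
          linarith
      _ = _ := one_mul _
  obtain ⟨n₁, hn₁⟩ := eventually_atTop.1 hlog
  refine ⟨max n₁ 1, fun n hn => ?_⟩
  have hn1 : n₁ ≤ n := (le_max_left _ _).trans hn
  have hn2 : 1 ≤ n := (le_max_right _ _).trans hn
  have hnR : (1 : ℝ) ≤ n := by exact_mod_cast hn2
  have hlog0 : 0 ≤ Real.log (n : ℝ) := Real.log_nonneg hnR
  have hdR : (3 : ℝ) ≤ d := by exact_mod_cast hd
  calc c * (d : ℝ) ^ (2 / 3 : ℝ) * (n : ℝ) ^ (2 / 3 : ℝ) * Real.log n ^ (1 / 3 : ℝ)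
      ≤ |c| * (d : ℝ) ^ (2 / 3 : ℝ) * (n : ℝ) ^ (2 / 3 : ℝ) * Real.log n ^ (1 / 3 : ℝ) := by
        gcongr
        exact le_abs_self c
    _ = (C * Real.log n ^ (1 / 3 : ℝ)) * (n : ℝ) ^ (2 / 3 : ℝ) := by rw [hC]; ring
    _ ≤ ((1 / 17 ^ d : ℝ) * (n : ℝ) ^ (1 / 12 : ℝ)) * (n : ℝ) ^ (2 / 3 : ℝ) :=
        mul_le_mul_of_nonneg_right (hn₁ n hn1) (by positivity)
    _ = (1 / 17 ^ d : ℝ) * (n : ℝ) ^ (3 / 4 : ℝ) := by
        rw [mul_assoc, ← Real.rpow_add (by positivity)]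
        norm_num
    _ ≤ (1 / 17 ^ d : ℝ) * ((n ^ d : ℕ) : ℝ) ^ (1 / ((d : ℝ) + 1)) := by
        gcongr
        push_cast
        rw [← Real.rpow_natCast, ← Real.rpow_mul (by positivity)]
        apply Real.rpow_le_rpow_of_exponent_le hnR
        rw [mul_one_div, div_le_div_iff₀ (by norm_num) (by positivity)]
        linarith
    _ ≤ k d n := k_lower d n (by omega) hn2

end Pool.Agent.Results.MP_ae055e_co.TooManyDistances
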